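import Mathlib
import Pool.Agent.V11153.SY.AmenS
import Pool.Agent.Y501.SY.BridgeU

/-!
# Symplectic forms from bounded closed forms on amenable coverings

`X` is a closed manifold with a continuous almost complex structure `J`, and `pr : Z → X` is a
normal covering with amenable deck group `Γ`. `w` is a smooth closed two-form on `Z` whose
translates are locally uniformly bounded, with all their derivatives. `w` need not be positive
anywhere: for each point `z` and each tangent vector `v ≠ 0` of `X` at `pr z` we look at the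
function `γ ↦ (γ^* w)(v, J v)` on `Γ`, and ask only that some FINITE sum of its right translates is
bounded below by a positive constant (`SumPos`).

* `J` is tamed by a symplectic form on `X` if and only if there is such a form `w` on `Z`.
* It suffices that the set of the points of `X` over which this fails has small components (of
  two-dimensional Hausdorff measure zero, or without `J`-complex tangent lines, or thin).
* It suffices that, for some smooth map `f` from `X` to a manifold, the condition holds for the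
  vectors `v` with `df(v) ≠ 0`, and that inside each fibre of `f` the components of the set of the
  points over which it fails are small.
* In particular it suffices that `w` is weakly taming and, at each point of `X` and for each
  direction, uniformly taming at a relatively dense (syndetic) set of the lifts.
-/

set_option autoImplicit false

open Set Filter Topology MeasureTheory
open scoped Manifold ContDiff

namespace Pool.Agent.Results.MP_9986fc_gt.AmenableAveraging

open Pool.Agent.Y501.SYP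

section

variable {V : Type} [NormedAddCommGroup V] [NormedSpace ℝ V]
  {Z X : Type} [TopologicalSpace Z] [ChartedSpace V Z] [TopologicalSpace X] [ChartedSpace V X]

/-- Let `v` be a tangent vector of `X` at `pr z` and `u`, `u'` the lifts of `v` and `J v` to `z`.
There are a finite set `F` in `Γ` and `c > 0` such that
`∑ g ∈ F, ((γ g)^* w)(u, u') ≥ c` for all `γ` in `Γ`. -/
def SumPos (Γ : Type) [Group Γ] [MulAction Γ Z] (pr : Z → X) (J : End V X) (w : Form V Z 2)
    (z : Z) (v : TangentSpace 𝓘(ℝ, V) (pr z)) : Prop :=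
  ∃ u u' : TangentSpace 𝓘(ℝ, V) z, mfderiv 𝓘(ℝ, V) 𝓘(ℝ, V) pr z u = v ∧
    mfderiv 𝓘(ℝ, V) 𝓘(ℝ, V) pr z u' = J (pr z) v ∧
    ∃ (F : Finset Γ) (c : ℝ), 0 < c ∧ ∀ γ : Γ, c ≤ ∑ g ∈ F, translate (γ * g) w z ![u, u']

/-- the points of `X` over which `SumPos` fails for some nonzero tangent vector -/
def NotSum (Γ : Type) [Group Γ] [MulAction Γ Z] (pr : Z → X) (J : End V X) (w : Form V Z 2) :
    Set X :=
  {x | ∃ z : Z, pr z = x ∧ ∃ v : TangentSpace 𝓘(ℝ, V) (pr z), v ≠ 0 ∧ ¬ SumPos Γ pr J w z v}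

/-- The components of `NotSum` are small at all their points. -/
def SmallNotSum [MeasurableSpace V] [BorelSpace V] (Γ : Type) [Group Γ] [MulAction Γ Z]
    (pr : Z → X) (J : End V X) (w : Form V Z 2) : Prop :=
  ∀ z : Z, pr z ∈ NotSum Γ pr J w →
    SmallAt J (connectedComponentIn (NotSum Γ pr J w) (pr z)) (pr z)
      (fun v => ¬ SumPos Γ pr J w z v)

/-- The components of the intersections of `NotSum` with the fibres of `f` are small at all their
points. -/
def SmallInFibres [MeasurableSpace V] [BorelSpace V] (Γ : Type) [Group Γ] [MulAction Γ Z]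
    (pr : Z → X) (J : End V X) (w : Form V Z 2) {Y : Type} (f : X → Y) : Prop :=
  ∀ z : Z, pr z ∈ NotSum Γ pr J w →
    SmallAt J (connectedComponentIn (NotSum Γ pr J w ∩ f ⁻¹' {f (pr z)}) (pr z)) (pr z)
      (fun v => ¬ SumPos Γ pr J w z v)

/-- `w` is smooth and closed and its translates are locally uniformly bounded, with all their
derivatives. -/
structure BoundedClosed (Γ : Type) [Group Γ] [MulAction Γ Z] (w : Form V Z 2) : Prop where
  smooth : IsSmooth w
  closed : IsClosedForm w
  bounded : BoundedTranslates Γ w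

/-- `w` is weakly taming: `(γ^* w)(u, u') ≥ 0` if `u'` is the lift of `J v`, `v = dpr(u)`. -/
def WeaklyTames (Γ : Type) [Group Γ] [MulAction Γ Z] (pr : Z → X) (J : End V X)
    (w : Form V Z 2) : Prop :=
  ∀ (z : Z) (u u' : TangentSpace 𝓘(ℝ, V) z),
    mfderiv 𝓘(ℝ, V) 𝓘(ℝ, V) pr z u' = J (pr z) (mfderiv 𝓘(ℝ, V) 𝓘(ℝ, V) pr z u) →
    ∀ γ : Γ, 0 ≤ translate γ w z ![u, u']

/-- `w` is uniformly taming at a relatively dense set of lifts: for every `z` and `u ≠ 0`, with `u'`
the lift of `J v`, `v = dpr(u)`, there are a finite set `F` in `Γ` and `c > 0` such that for every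
`γ` there is `g ∈ F` with `((γ g)^* w)(u, u') ≥ c`. -/
def SyndeticallyTames (Γ : Type) [Group Γ] [MulAction Γ Z] (pr : Z → X) (J : End V X)
    (w : Form V Z 2) : Prop :=
  ∀ (z : Z) (u u' : TangentSpace 𝓘(ℝ, V) z), u ≠ 0 →
    mfderiv 𝓘(ℝ, V) 𝓘(ℝ, V) pr z u' = J (pr z) (mfderiv 𝓘(ℝ, V) 𝓘(ℝ, V) pr z u) →
    ∃ (F : Finset Γ) (c : ℝ), 0 < c ∧ ∀ γ : Γ, ∃ g ∈ F, c ≤ translate (γ * g) w z ![u, u']

end

section

variable {d : ℕ}

attribute [local instance] cs mf

theorem smallS_of {X : Type} [TopologicalSpace X] [ChartedSpace (ES d) X]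
    {J : End (ES d) X} {C : Set X} {z : X}
    {P : TangentSpace 𝓘(ℝ, ES d) z → Prop} (h : SmallAt J C z P) :
    Pool.Agent.Y501.SY.SmallP (d := d) (X := X) J C z P := smallP_of h

variable {Z X : Type} [TopologicalSpace Z] [ChartedSpace (ES d) Z]
  [IsManifold 𝓘(ℝ, ES d) ∞ Z] [TopologicalSpace X] [ChartedSpace (ES d) X]
  [IsManifold 𝓘(ℝ, ES d) ∞ X] {Γ : Type} [Group Γ] [MulAction Γ Z]

theorem maps [CompactSpace X] [T2Space X] (hΓ : Amenable Γ) (pr : Z → X)
    (hpr : NormalCovering (ES d) Γ pr) (J : End (ES d) X) (hJ : IsAlmostComplex J) {m : ℕ}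
    {Y : Type} [TopologicalSpace Y] [ChartedSpace (ES m) Y] [IsManifold 𝓘(ℝ, ES m) ∞ Y]
    [T2Space Y] (f : X → Y) (hf : ContMDiff 𝓘(ℝ, ES d) 𝓘(ℝ, ES m) ∞ f)
    (w : Form (ES d) Z 2) (hw : BoundedClosed Γ w)
    (hker : ∀ (z : Z) (v : TangentSpace 𝓘(ℝ, ES d) (pr z)),
      mfderiv 𝓘(ℝ, ES d) 𝓘(ℝ, ES m) f (pr z) v ≠ 0 → SumPos Γ pr J w z v)
    (hsmall : SmallInFibres Γ pr J w f) :
    ∃ σ : Form (ES d) X 2, IsTamingSymplectic σ J := by
  obtain ⟨μ, hμ⟩ := hΓ
  obtain ⟨σ, h1, h2, h3⟩ := Pool.Agent.V11153.SY.amenS (d := d) (Z := Z) (X := X) (Γ := Γ)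
    (n := m) (Y := Y) (mean_of hμ) hpr.smooth (pr := pr) hpr.diffeo hpr.surj hpr.orbits (J := J)
    (ac_of J hJ) (f := f) hf (w := w) ((smooth_iff w).1 hw.smooth) ((closed_iff w).1 hw.closed)
    ((bdt_iff w).1 hw.bounded) hker (fun z hz => smallP_of (hsmall z hz))
  exact ⟨σ, symp_of ((smooth_iff σ).2 h1) ((closed_iff σ).2 h2) h3⟩

theorem small [CompactSpace X] [T2Space X] (hΓ : Amenable Γ) (pr : Z → X)
    (hpr : NormalCovering (ES d) Γ pr) (J : End (ES d) X) (hJ : IsAlmostComplex J)
    (w : Form (ES d) Z 2) (hw : BoundedClosed Γ w) (hsmall : SmallNotSum Γ pr J w) :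
    ∃ σ : Form (ES d) X 2, IsTamingSymplectic σ J := by
  refine maps hΓ pr hpr J hJ (m := 0) (Y := ES 0) (fun _ : X => (0 : ES 0)) contMDiff_const w hw
    ?_ ?_
  · intro z v hv
    exfalso
    apply hv
    rw [mfderiv_const]
    rfl
  · intro z hz
    have e : NotSum Γ pr J w ∩ (fun _ : X => (0 : ES 0)) ⁻¹' {(fun _ : X => (0 : ES 0)) (pr z)} =
        NotSum Γ pr J w := by
      ext x
      simp
    rw [e]
    exact hsmall z hz

theorem lifts (pr : Z → X) (hpr : NormalCovering (ES d) Γ pr) (z : Z) :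
    Function.Bijective (mfderiv 𝓘(ℝ, ES d) 𝓘(ℝ, ES d) pr z) := by
  have h1 := (hpr.diffeo z).mfderivToContinuousLinearEquiv_coe (by simp)
  rw [← h1]
  exact ((hpr.diffeo z).mfderivToContinuousLinearEquiv (by simp)).bijective

theorem notSum_empty {pr : Z → X} {J : End (ES d) X} {w : Form (ES d) Z 2}
    (h : ∀ (z : Z) (v : TangentSpace 𝓘(ℝ, ES d) (pr z)), v ≠ 0 → SumPos Γ pr J w z v) :
    SmallNotSum Γ pr J w := by
  rintro z ⟨z', -, v, hv, hn⟩
  exact absurd (h z' v hv) hn

end

/-- **Symplectic forms from bounded closed forms on amenable coverings.** Let `X` be a closed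
manifold with a continuous almost complex structure `J` and `pr : Z → X` a normal covering with
amenable deck group `Γ`. (1) The following are equivalent: `J` is tamed by a symplectic form on
`X`; there is a smooth closed two-form `w` on `Z` with bounded translates such that for all nonzero
tangent vectors `v` of `X` a finite sum of the translates of `w` is uniformly positive on the lifts
of `(v, J v)`; there is such a form for which the set of the points of `X` over which this fails has
small components. (2) The same with a map `f` to a manifold, if the condition holds for all `v` with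
`df(v) ≠ 0` and the components inside the fibres of `f` are small. (3) `J` is tamed by a symplectic
form if there is a weakly taming `w` that is uniformly taming at a relatively dense set of lifts. -/
theorem result (d : ℕ) (Z X : Type) [TopologicalSpace Z] [ChartedSpace (ES d) Z]
    [IsManifold 𝓘(ℝ, ES d) ∞ Z] [TopologicalSpace X] [ChartedSpace (ES d) X]
    [IsManifold 𝓘(ℝ, ES d) ∞ X] (Γ : Type) [Group Γ] [MulAction Γ Z]
    [CompactSpace X] [T2Space X] (hΓ : Amenable Γ) (pr : Z → X)
    (hpr : NormalCovering (ES d) Γ pr) (J : End (ES d) X) (hJ : IsAlmostComplex J) :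
    List.TFAE [
      ∃ σ : Form (ES d) X 2, IsTamingSymplectic σ J,
      ∃ w : Form (ES d) Z 2, BoundedClosed Γ w ∧
        ∀ (z : Z) (v : TangentSpace 𝓘(ℝ, ES d) (pr z)), v ≠ 0 → SumPos Γ pr J w z v,
      ∃ w : Form (ES d) Z 2, BoundedClosed Γ w ∧ SmallNotSum Γ pr J w] ∧
    (∀ (m : ℕ) (Y : Type) [TopologicalSpace Y] [ChartedSpace (ES m) Y]
      [IsManifold 𝓘(ℝ, ES m) ∞ Y] [T2Space Y] (f : X → Y),
      ContMDiff 𝓘(ℝ, ES d) 𝓘(ℝ, ES m) ∞ f → ∀ w : Form (ES d) Z 2, BoundedClosed Γ w →
      (∀ (z : Z) (v : TangentSpace 𝓘(ℝ, ES d) (pr z)),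
        mfderiv 𝓘(ℝ, ES d) 𝓘(ℝ, ES m) f (pr z) v ≠ 0 → SumPos Γ pr J w z v) →
      SmallInFibres Γ pr J w f → ∃ σ : Form (ES d) X 2, IsTamingSymplectic σ J) ∧
    (∀ w : Form (ES d) Z 2, BoundedClosed Γ w → WeaklyTames Γ pr J w →
      SyndeticallyTames Γ pr J w → ∃ σ : Form (ES d) X 2, IsTamingSymplectic σ J) := by
  refine ⟨?_, ?_, ?_⟩
  · tfae_have 1 → 2 := by
      intro h
      obtain ⟨w, h1, h2, h3, h4⟩ := (amenable_descent hΓ pr hpr J).1 h
      refine ⟨w, ⟨h1, h2, h3⟩, fun z v hv => ?_⟩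
      obtain ⟨u, hu⟩ := (lifts pr hpr z).2 v
      obtain ⟨u', hu'⟩ := (lifts pr hpr z).2 (J (pr z) v)
      have hu0 : u ≠ 0 := by
        rintro rfl
        apply hv
        rw [← hu, map_zero]
      obtain ⟨c, hc, hle⟩ := h4 z u u' hu0 (by rw [hu', hu])
      refine ⟨u, u', hu, hu', {1}, c, hc, fun γ => ?_⟩
      rw [Finset.sum_singleton, mul_one]
      exact hle γ
    tfae_have 2 → 3 := by
      rintro ⟨w, h1, h2⟩
      exact ⟨w, h1, notSum_empty h2⟩
    tfae_have 3 → 1 := by
      rintro ⟨w, h1, h2⟩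
      exact small hΓ pr hpr J hJ w h1 h2
    tfae_finish
  · intro m Y _ _ _ _ f hf w hw hker hsm
    exact maps hΓ pr hpr J hJ f hf w hw hker hsm
  · intro w hw hweak hsynd
    refine small hΓ pr hpr J hJ w hw (notSum_empty fun z v hv => ?_)
    obtain ⟨u, hu⟩ := (lifts pr hpr z).2 v
    obtain ⟨u', hu'⟩ := (lifts pr hpr z).2 (J (pr z) v)
    have hu0 : u ≠ 0 := by
      rintro rfl
      apply hv
      rw [← hu, map_zero]
    have hJu : mfderiv 𝓘(ℝ, ES d) 𝓘(ℝ, ES d) pr z u' =
        J (pr z) (mfderiv 𝓘(ℝ, ES d) 𝓘(ℝ, ES d) pr z u) := by rw [hu', hu]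
    obtain ⟨F, c, hc, hle⟩ := hsynd z u u' hu0 hJu
    refine ⟨u, u', hu, hu', F, c, hc, fun γ => ?_⟩
    obtain ⟨g, hg, hcg⟩ := hle γ
    exact hcg.trans (Finset.single_le_sum
      (f := fun g => translate (γ * g) w z ![u, u']) (fun g _ => hweak z u u' hJu (γ * g)) hg)

end Pool.Agent.Results.MP_9986fc_gt.AmenableAveraging
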