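import Mathlib
import Pool.Agent.Helper33.CH6

/-!
# Symplectic forms on towers of maps with arbitrary singular fibres

`X` is a closed manifold with a continuous almost complex structure `J`, and `p 0, …, p k` are smooth maps
from `X` to manifolds `Y 0, …, Y k` (of any dimensions), such that the kernels of the differentials decrease,
`ker d(p k) ⊆ ⋯ ⊆ ker d(p 0)`; for instance a tower `X → Y k → ⋯ → Y 0`. The maps may have arbitrary
singularities. There are closed two-forms `τ i` on `Y i`, not necessarily symplectic: it is only required that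
the pull-back of `τ 0` is nonnegative on all pairs `(v, J v)`, and zero only if `d(p 0) v = 0`, and that the
pull-back of `τ i` is nonnegative on the pairs `(v, J v)` with `d(p (i - 1)) v = 0`, and zero only if
`d(p i) v = 0`. The manifolds `Y i` do not need to be symplectic or almost complex. A closed two-form `ζ` on
`X`, corrected by an exact form which depends on the fibre, is nonnegative on the kernel of `d(p k)` over each
fibre of `p k`, and positive except at a set of points with small components.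

Then for some smooth one-form `α` on `X`, for all small `t_{k+1} > 0`, all small `t_k > 0` (depending on
`t_{k+1}`), …, all small `t_1 > 0`, the form
`p_0^* τ_0 + t_1 (p_1^* τ_1 + t_2 (⋯ + t_k (p_k^* τ_k + t_{k+1} (ζ + dα))))` is symplectic and tames `J`.
-/

set_option autoImplicit false

open Set MeasureTheory
open scoped Manifold ContDiff

namespace Pool.Agent.Results.MP_9986fc_gt.IteratedFibrations

open Pool.Agent.Y501.SYP Pool.Agent.Helper33.CHP

theorem result (d : ℕ) (X : Type) [TopologicalSpace X] [ChartedSpace (ES d) X]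
    [IsManifold 𝓘(ℝ, ES d) ∞ X] [CompactSpace X] [T2Space X] (k : ℕ)
    (m : ℕ → ℕ) (Y : ℕ → Type) [∀ i, TopologicalSpace (Y i)] [∀ i, ChartedSpace (ES (m i)) (Y i)]
    [∀ i, IsManifold 𝓘(ℝ, ES (m i)) ∞ (Y i)] [T2Space (Y k)] [SigmaCompactSpace (Y k)]
    (J : End (ES d) X) (hJ : IsAlmostComplex J)
    (p : ∀ i, X → Y i) (hp : ∀ i ≤ k, ContMDiff 𝓘(ℝ, ES d) 𝓘(ℝ, ES (m i)) ∞ (p i))
    (τ : ∀ i, Form (ES (m i)) (Y i) 2) (hτ : ∀ i ≤ k, IsSmooth (τ i) ∧ IsClosedForm (τ i))
    (hnest : ∀ i ≤ k, ∀ (x : X) (v : TangentSpace 𝓘(ℝ, ES d) x), kerD (m i) (p i) x v →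
      before m p i x v)
    (hpos : ∀ i ≤ k, ∀ (x : X) (v : TangentSpace 𝓘(ℝ, ES d) x), before m p i x v →
      0 ≤ qd (pullBack (p i) (τ i)) J x v ∧
        (qd (pullBack (p i) (τ i)) J x v = 0 → kerD (m i) (p i) x v))
    (ζ : Form (ES d) X 2) (hζ : IsSmooth ζ) (hζc : IsClosedForm ζ)
    (hfib : ∀ y : Y k, GoodOver (kerD (m k) (p k)) ζ J (p k ⁻¹' {y})) :
    ∃ (α : Form (ES d) X 1) (ρ : Form (ES d) X 2), IsSmooth α ∧ IsSmooth ρ ∧ IsD α ρ ∧
      NestedForms (TamingInHomotopyClass J) (fun i => pullBack (p i) (τ i)) (k + 1)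
        (addF ζ ρ) :=
  towers k m Y J hJ p hp τ hτ hnest hpos ζ hζ hζc hfib

end Pool.Agent.Results.MP_9986fc_gt.IteratedFibrations
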