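import Mathlib
import Pool.Agent.Y501.SY.Bridge

/-!
# Symplectic forms on almost complex manifolds which are mapped to another manifold

`X` is a closed manifold with a continuous almost complex structure `J`, `f : X → Y` is a smooth map to a
manifold and `σ` is a closed two-form on `X` with `σ(v, J v) ≥ 0`, and `> 0` unless `df(v) = 0` (for
instance the pull-back of a symplectic form of `Y` by a pseudoholomorphic map). If a closed two-form `ζ`
is, on every fibre and up to an exact form depending on the fibre, nonnegative on the null vectors of `σ`,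
and positive except at a set of points of the fibre with small components, then `X` has symplectic forms
taming `J` in the classes `[σ] + t [ζ]` for all small `t > 0`.
-/

set_option autoImplicit false

open Set MeasureTheory
open scoped Manifold ContDiff

namespace Pool.Agent.Results.MP_9986fc_gt.SingularFibrations

open Pool.Agent.Y501.SYP

/-- **A Gompf-Thurston theorem with arbitrary singular fibres.** Let `X` be a closed manifold with a
continuous almost complex structure `J`, let `f : X → Y` be a smooth map to a manifold, and let `σ`, `ζ` be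
smooth closed two-forms on `X` with `σ(v, J v) ≥ 0` for all `v`, and `df(v) = 0` whenever
`σ(v, J v) = 0`. Suppose that every fibre `F` of `f` is good: there is a smooth one-form `β` on `X` such that
`θ = ζ + dβ` satisfies `θ(v, J v) ≥ 0` for all vectors `v` at points of `F` with `σ(v, J v) = 0`, and such that
the components of the set of the points of `F` with a nonzero vector `v`, `σ(v, J v) = θ(v, J v) = 0`, are
small at all their points (of two-dimensional Hausdorff measure zero nearby, or with a tangent space which
contains no `J`-complex line, or thin). Then there is a smooth one-form `α` on `X` such that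
`σ + t (ζ + dα)` is a symplectic form taming `J` for all `0 < t ≤ t₀`. -/
theorem result (d m : ℕ) (X Y : Type) [TopologicalSpace X] [ChartedSpace (ES d) X]
    [IsManifold 𝓘(ℝ, ES d) ∞ X] [CompactSpace X] [T2Space X]
    [TopologicalSpace Y] [ChartedSpace (ES m) Y] [IsManifold 𝓘(ℝ, ES m) ∞ Y] [T2Space Y]
    [SigmaCompactSpace Y]
    (J : End (ES d) X) (hJ : IsAlmostComplex J)
    (f : X → Y) (hf : ContMDiff 𝓘(ℝ, ES d) 𝓘(ℝ, ES m) ∞ f)
    (σ ζ : Form (ES d) X 2) (hσ : IsSmooth σ) (hσc : IsClosedForm σ)
    (hζ : IsSmooth ζ) (hζc : IsClosedForm ζ)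
    (hpos : ∀ (x : X) (v : TangentSpace 𝓘(ℝ, ES d) x), 0 ≤ qd σ J x v)
    (hker : ∀ (x : X) (v : TangentSpace 𝓘(ℝ, ES d) x), qd σ J x v = 0 →
      mfderiv 𝓘(ℝ, ES d) 𝓘(ℝ, ES m) f x v = 0)
    (hfib : ∀ y : Y, GoodFibre σ ζ J (f ⁻¹' {y})) :
    ∃ (α : Form (ES d) X 1) (ρ : Form (ES d) X 2), IsSmooth α ∧ IsSmooth ρ ∧ IsD α ρ ∧
      ∃ t₀ : ℝ, 0 < t₀ ∧ ∀ t : ℝ, 0 < t → t ≤ t₀ →
        IsTamingSymplectic (comb σ t (addF ζ ρ)) J :=
  twoLevel J hJ f hf σ ζ hσ hσc hζ hζc hpos hker hfib

end Pool.Agent.Results.MP_9986fc_gt.SingularFibrations
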